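import Pool.Agent.FB.Iface2

/-!
# BC/A: absolutely convergent Fourier series on the unit circle (helper66)
-/

open Complex Set
open scoped ComplexConjugate Real

namespace FB.BC

/-- Sum of the Fourier series. -/
noncomputable def FF (x : ℤ → ℂ) (ζ : ℂ) : ℂ := ∑' n : ℤ, x n * ζ ^ n

/-- Absolute summability. -/
def AS (x : ℤ → ℂ) : Prop := Summable (fun n : ℤ => ‖x n‖)

/-- The symmetry `x_{-n} = (-1)^n conj x_n`. -/
def IsH (x : ℤ → ℂ) : Prop := ∀ n : ℤ, x (-n) = (-1) ^ n.natAbs * conj (x n)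

theorem neg_one_natAbs (n : ℤ) : ((-1 : ℂ)) ^ n.natAbs = (-1 : ℂ) ^ n := by
  rcases Int.natAbs_eq n with h | h
  · conv_rhs => rw [h]
    rw [zpow_natCast]
  · conv_rhs => rw [h]
    rw [zpow_neg, zpow_natCast]
    rcases neg_one_pow_eq_or ℂ n.natAbs with h1 | h1 <;> rw [h1] <;> norm_num

theorem norm_zpow_one {ζ : ℂ} (hζ : ‖ζ‖ = 1) (n : ℤ) : ‖ζ ^ n‖ = 1 := by
  rw [norm_zpow, hζ, one_zpow]

theorem AS.summable {x : ℤ → ℂ} (hx : AS x) {ζ : ℂ} (hζ : ‖ζ‖ = 1) :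
    Summable (fun n : ℤ => x n * ζ ^ n) := by
  refine Summable.of_norm ?_
  refine hx.congr fun n => ?_
  rw [norm_mul, norm_zpow_one hζ, mul_one]

theorem AS.norm_summable {x : ℤ → ℂ} (hx : AS x) {ζ : ℂ} (hζ : ‖ζ‖ = 1) :
    Summable (fun n : ℤ => ‖x n * ζ ^ n‖) := by
  refine hx.congr fun n => ?_
  rw [norm_mul, norm_zpow_one hζ, mul_one]

theorem AS.hasSum {x : ℤ → ℂ} (hx : AS x) {ζ : ℂ} (hζ : ‖ζ‖ = 1) :
    HasSum (fun n : ℤ => x n * ζ ^ n) (FF x ζ) := (hx.summable hζ).hasSum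

/-- The shear `(n, k) ↦ (k, n - k)`. -/
def shear : ℤ × ℤ ≃ ℤ × ℤ where
  toFun p := (p.2, p.1 - p.2)
  invFun q := (q.1 + q.2, q.1)
  left_inv p := by ext <;> simp
  right_inv q := by ext <;> simp

theorem summable_shear {x y : ℤ → ℂ} (hx : AS x) (hy : AS y) :
    Summable (fun p : ℤ × ℤ => ‖x p.2 * y (p.1 - p.2)‖) := by
  have h1 : Summable (fun q : ℤ × ℤ => ‖x q.1‖ * ‖y q.2‖) :=
    Summable.mul_of_nonneg hx hy (fun _ => norm_nonneg _) (fun _ => norm_nonneg _)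
  have h2 := (shear.summable_iff).2 h1
  refine h2.congr fun p => ?_
  simp [shear, norm_mul]

theorem AS.conv {x y : ℤ → ℂ} (hx : AS x) (hy : AS y) : AS (conv x y) := by
  have h := summable_shear hx hy
  have h1 := h.prod
  refine Summable.of_nonneg_of_le (fun n => norm_nonneg _) (fun n => ?_) h1
  have h2 := h.prod_factor n
  exact norm_tsum_le_tsum_norm h2

theorem FF_conv {x y : ℤ → ℂ} (hx : AS x) (hy : AS y) {ζ : ℂ} (hζ : ‖ζ‖ = 1) :
    FF (conv x y) ζ = FF x ζ * FF y ζ := by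
  have hζ0 : ζ ≠ 0 := by
    intro h
    rw [h, norm_zero] at hζ
    exact zero_ne_one hζ
  have h1 := tsum_mul_tsum_of_summable_norm (hx.norm_summable hζ) (hy.norm_summable hζ)
  have h2 : ∑' q : ℤ × ℤ, (x q.1 * ζ ^ q.1) * (y q.2 * ζ ^ q.2) =
      ∑' p : ℤ × ℤ, (x p.2 * y (p.1 - p.2)) * ζ ^ p.1 := by
    rw [← shear.tsum_eq]
    refine tsum_congr fun p => ?_
    have h3 : ζ ^ p.1 = ζ ^ p.2 * ζ ^ (p.1 - p.2) := by
      rw [← zpow_add₀ hζ0]
      congr 1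
      ring
    simp only [shear, Equiv.coe_fn_mk]
    rw [h3]
    ring
  have hs : Summable (fun p : ℤ × ℤ => (x p.2 * y (p.1 - p.2)) * ζ ^ p.1) := by
    refine Summable.of_norm ((summable_shear hx hy).congr fun p => ?_)
    rw [norm_mul (x p.2 * y (p.1 - p.2)), norm_zpow_one hζ, mul_one]
  rw [FF, FF, FF, h1, h2, hs.tsum_prod]
  refine tsum_congr fun n => ?_
  rw [FB.conv, ← tsum_mul_right]

theorem AS.reflect {x : ℤ → ℂ} (hx : AS x) : AS (fun n => x (-n)) :=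
  (Equiv.neg ℤ).summable_iff.2 hx

theorem FF_reflect (x : ℤ → ℂ) {ζ : ℂ} (hζ : ‖ζ‖ = 1) :
    FF x (conj ζ) = FF (fun n => x (-n)) ζ := by
  have h1 : conj ζ = ζ⁻¹ := by
    rw [Complex.inv_def, Complex.normSq_eq_norm_sq, hζ]
    simp
  rw [FF, FF, ← (Equiv.neg ℤ).tsum_eq, h1]
  refine tsum_congr fun n => ?_
  simp only [Equiv.neg_apply, inv_zpow', neg_neg]

theorem conj_FF (x : ℤ → ℂ) (ζ : ℂ) : conj (FF x ζ) = FF (fun n => conj (x n)) (conj ζ) := by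
  rw [FF, FF, Complex.conj_tsum]
  refine tsum_congr fun n => ?_
  rw [map_mul, map_zpow₀]

theorem FF_cj {x : ℤ → ℂ} (hH : IsH x) {ζ : ℂ} (hζ : ‖ζ‖ = 1) :
    FF (cj x) ζ = conj (FF x ζ) := by
  rw [conj_FF, FF_reflect _ hζ]
  congr 1
  funext n
  rw [hH n, map_mul, Complex.conj_conj, map_pow, map_neg, map_one]
  rfl

theorem AS.cj {x : ℤ → ℂ} (hx : AS x) : AS (FB.cj x) := by
  refine hx.congr fun n => ?_
  rw [FB.cj, norm_mul, norm_pow, norm_neg, norm_one, one_pow, one_mul]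

theorem AS.PP {x : ℤ → ℂ} (hx : AS x) : AS (FB.PP x) := by
  refine Summable.of_nonneg_of_le (fun n => norm_nonneg _) (fun n => ?_) hx
  rw [FB.PP]
  split_ifs
  · rw [Complex.norm_real]
    exact Complex.abs_re_le_norm _
  · rw [norm_zero]
    exact norm_nonneg _

theorem even_natAbs_of_four {n : ℤ} (h : (4 : ℤ) ∣ n) : ((-1 : ℂ)) ^ n.natAbs = 1 := by
  rw [neg_one_natAbs]
  obtain ⟨k, rfl⟩ := h
  rw [zpow_mul]
  norm_num

theorem PP_neg {x : ℤ → ℂ} (hH : IsH x) (n : ℤ) : PP x (-n) = PP x n := by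
  rw [PP, PP]
  by_cases h : (4 : ℤ) ∣ n
  · rw [if_pos h, if_pos ((dvd_neg).2 h), hH n, even_natAbs_of_four h]
    simp
  · rw [if_neg h, if_neg (fun h' => h ((dvd_neg).1 h'))]

theorem FF_PP_conj_arg {x : ℤ → ℂ} (hH : IsH x) {ζ : ℂ} (hζ : ‖ζ‖ = 1) :
    FF (PP x) (conj ζ) = FF (PP x) ζ := by
  rw [FF_reflect _ hζ]
  congr 1
  funext n
  exact PP_neg hH n

theorem FF_PP_real {x : ℤ → ℂ} (hH : IsH x) {ζ : ℂ} (hζ : ‖ζ‖ = 1) :
    conj (FF (PP x) ζ) = FF (PP x) ζ := by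
  rw [conj_FF]
  have h1 : (fun n => conj (PP x n)) = PP x := by
    funext n
    rw [PP]
    split_ifs
    · rw [Complex.conj_ofReal]
    · rw [map_zero]
  rw [h1, FF_PP_conj_arg hH hζ]

theorem FF_PP_re {x : ℤ → ℂ} (hH : IsH x) {ζ : ℂ} (hζ : ‖ζ‖ = 1) :
    (((FF (PP x) ζ).re : ℝ) : ℂ) = FF (PP x) ζ :=
  Complex.conj_eq_iff_re.1 (FF_PP_real hH hζ)

theorem I_zpow_of_four {n : ℤ} (h : (4 : ℤ) ∣ n) : (I : ℂ) ^ n = 1 := by
  obtain ⟨k, rfl⟩ := h
  rw [zpow_mul]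
  have : (I : ℂ) ^ (4 : ℤ) = 1 := by
    have := Complex.I_pow_four
    exact_mod_cast this
  rw [this, one_zpow]

theorem FF_PP_rot (x : ℤ → ℂ) (ζ : ℂ) : FF (PP x) (I * ζ) = FF (PP x) ζ := by
  rw [FF, FF]
  refine tsum_congr fun n => ?_
  rw [PP]
  split_ifs with h
  · rw [mul_zpow, I_zpow_of_four h, one_mul]
  · rw [zero_mul, zero_mul]

/-- Average over `G4`. -/
theorem FF_avg {y : ℤ → ℂ} (hy : AS y) (hH : IsH y) (hodd : ∀ n : ℤ, ¬ (2 : ℤ) ∣ n → y n = 0)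
    {ζ : ℂ} (hζ : ‖ζ‖ = 1) :
    FF y ζ + FF y (I * ζ) + FF y (conj ζ) + FF y (I * conj ζ) = 4 * FF (PP y) ζ := by
  have hIζ : ‖I * ζ‖ = 1 := by rw [norm_mul, Complex.norm_I, hζ, one_mul]
  have hcζ : ‖conj ζ‖ = 1 := by rw [RCLike.norm_conj, hζ]
  have hc2 : I * conj ζ = conj (-I * ζ) := by rw [map_mul, map_neg, Complex.conj_I, neg_neg]
  have hmI : ‖-I * ζ‖ = 1 := by rw [norm_mul, norm_neg, Complex.norm_I, hζ, one_mul]
  rw [hc2, FF_reflect y hζ, FF_reflect y hmI]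
  have s1 := hy.hasSum hζ
  have s2 := hy.hasSum hIζ
  have s3 := hy.reflect.hasSum hζ
  have s4 := hy.reflect.hasSum hmI
  have s5 := (hy.PP.hasSum hζ).mul_left 4
  have s6 := ((s1.add s2).add s3).add s4
  have hfun : (fun n : ℤ => y n * ζ ^ n + y n * (I * ζ) ^ n + y (-n) * ζ ^ n + y (-n) * (-I * ζ) ^ n) =
      fun n : ℤ => 4 * (PP y n * ζ ^ n) := by
    funext n
    rw [mul_zpow, mul_zpow, PP]
    by_cases h4 : (4 : ℤ) ∣ n
    · rw [if_pos h4, I_zpow_of_four h4]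
      have h5 : (-I : ℂ) ^ n = 1 := by
        have h6 : (-I : ℂ) = I⁻¹ := by rw [Complex.inv_I]
        rw [h6, inv_zpow, I_zpow_of_four h4, inv_one]
      have h7 : y (-n) = conj (y n) := by rw [hH n, even_natAbs_of_four h4, one_mul]
      have h8 : (y n) + conj (y n) = 2 * (((y n).re : ℝ) : ℂ) := by
        rw [Complex.add_conj]
        push_cast
        ring
      rw [h5, h7]
      linear_combination (2 * ζ ^ n) * h8
    · rw [if_neg h4]
      by_cases h2 : (2 : ℤ) ∣ n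
      · have hI : (I : ℂ) ^ n = -1 := by
          obtain ⟨k, rfl⟩ := h2
          have hk : ¬ (2 : ℤ) ∣ k := fun h => h4 (by
            obtain ⟨j, rfl⟩ := h
            exact ⟨j, by ring⟩)
          rw [zpow_mul]
          have h9 : (I : ℂ) ^ (2 : ℤ) = -1 := by
            have := Complex.I_sq
            exact_mod_cast this
          rw [h9]
          exact Odd.neg_one_zpow (Int.not_even_iff_odd.1 fun h => hk h.two_dvd)
        have hI' : (-I : ℂ) ^ n = -1 := by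
          have h6 : (-I : ℂ) = I⁻¹ := by rw [Complex.inv_I]
          rw [h6, inv_zpow, hI]
          norm_num
        rw [hI, hI']
        ring
      · have hn := hodd n h2
        have hn' : y (-n) = 0 := hodd (-n) fun h => h2 ((dvd_neg).1 h)
        rw [hn, hn']
        ring
  rw [hfun] at s6
  exact s6.unique s5

theorem IsH.cj {x : ℤ → ℂ} (hx : IsH x) : IsH (cj x) := by
  intro n
  rw [FB.cj, FB.cj, hx n, Int.natAbs_neg, map_mul, map_pow, map_neg, map_one]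

theorem IsH.conv {x y : ℤ → ℂ} (hx : IsH x) (hy : IsH y) : IsH (conv x y) := by
  intro n
  rw [FB.conv, FB.conv, Complex.conj_tsum, ← tsum_mul_left, ← (Equiv.neg ℤ).tsum_eq]
  refine tsum_congr fun k => ?_
  simp only [Equiv.neg_apply]
  have h1 : -n - -k = -(n - k) := by ring
  rw [h1, hx k, hy (n - k), map_mul, neg_one_natAbs, neg_one_natAbs, neg_one_natAbs]
  have h2 : (-1 : ℂ) ^ n = (-1 : ℂ) ^ k * (-1 : ℂ) ^ (n - k) := by
    rw [← zpow_add₀ (by norm_num)]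
    congr 1
    ring
  rw [h2]
  ring

theorem conv_cj_odd (x : ℤ → ℂ) (n : ℤ) (hn : ¬ (2 : ℤ) ∣ n) : conv x (cj x) n = 0 := by
  have h1 : conv x (cj x) n = -conv x (cj x) n := by
    have e : conv x (cj x) n = ∑' k : ℤ, x (n - k) * cj x k := by
      rw [FB.conv, ← (Equiv.subLeft n).tsum_eq]
      refine tsum_congr fun k => ?_
      simp
    conv_lhs => rw [FB.conv]
    rw [e, ← tsum_neg]
    refine tsum_congr fun k => ?_
    rw [FB.cj, FB.cj, neg_one_natAbs, neg_one_natAbs]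
    have h2 : (-1 : ℂ) ^ n = (-1 : ℂ) ^ k * (-1 : ℂ) ^ (n - k) := by
      rw [← zpow_add₀ (by norm_num)]
      congr 1
      ring
    have h3 : (-1 : ℂ) ^ n = -1 :=
      Odd.neg_one_zpow (Int.not_even_iff_odd.1 fun h => hn h.two_dvd)
    have h4 : (-1 : ℂ) ^ (n - k) * (-1 : ℂ) ^ (n - k) = 1 := by
      rw [← mul_zpow]
      norm_num
    have h5 : (-1 : ℂ) ^ k = -(-1 : ℂ) ^ (n - k) := by
      have h6 : (-1 : ℂ) ^ k = (-1 : ℂ) ^ k * ((-1 : ℂ) ^ (n - k) * (-1 : ℂ) ^ (n - k)) := by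
        rw [h4, mul_one]
      rw [h6, ← mul_assoc, ← h2, h3]
      ring
    rw [h5]
    ring
  have h2 : (2 : ℂ) * conv x (cj x) n = 0 := by linear_combination h1
  rcases mul_eq_zero.1 h2 with h | h
  · norm_num at h
  · exact h

/-- Fourier sum as a one sided sum. -/
theorem FF_nat {x : ℤ → ℂ} (hx : AS x) {ζ : ℂ} (hζ : ‖ζ‖ = 1) :
    HasSum (fun n : ℕ => if n = 0 then 0 else x n * ζ ^ n + x (-n) * (ζ ^ n)⁻¹) (FF x ζ - x 0) := by
  have h1 := HasSum.nat_add_neg (hx.hasSum hζ)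
  have h2 : HasSum (fun n : ℕ => if n = 0 then 2 * x 0 else 0) (2 * x 0) := by
    have := hasSum_ite_eq (0 : ℕ) (2 * x 0)
    exact this
  have h3 := h1.sub h2
  have h4 : FF x ζ + x 0 * ζ ^ (0 : ℤ) - 2 * x 0 = FF x ζ - x 0 := by
    rw [zpow_zero]
    ring
  rw [h4] at h3
  have h5 : (fun n : ℕ => if n = 0 then 0 else x n * ζ ^ n + x (-n) * (ζ ^ n)⁻¹) =
      fun n : ℕ => x n * ζ ^ (n : ℤ) + x (-(n : ℤ)) * ζ ^ (-(n : ℤ)) -
        (if n = 0 then 2 * x 0 else 0) := by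
    funext n
    by_cases hn : n = 0
    · subst hn
      simp
      ring
    · rw [if_neg hn, if_neg hn, sub_zero, zpow_natCast, zpow_neg, zpow_natCast]
  rw [h5]
  exact h3

end FB.BC
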