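import Pool.Agent.FB.BC.A

/-!
# BC/B: the functions on the circle and their Fourier series (helper66)
-/

open Complex Set
open scoped ComplexConjugate Real

namespace FB.BC

theorem ext_nat (b : ℕ → ℂ) (n : ℕ) (hn : n ≠ 0) : ext b (n : ℤ) = b n := by
  have h : (0 : ℤ) < n := by exact_mod_cast Nat.pos_of_ne_zero hn
  rw [ext, if_pos h, Int.toNat_natCast]

theorem ext_neg_nat (b : ℕ → ℂ) (n : ℕ) (hn : n ≠ 0) :
    ext b (-(n : ℤ)) = (-1) ^ n * conj (b n) := by
  have h : (0 : ℤ) < n := by exact_mod_cast Nat.pos_of_ne_zero hn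
  rw [ext, if_neg (by omega), if_pos (by omega), neg_neg, Int.toNat_natCast, Int.natAbs_neg,
    Int.natAbs_natCast]

theorem ext_zero (b : ℕ → ℂ) : ext b 0 = 0 := by
  rw [ext, if_neg (lt_irrefl _), if_neg (lt_irrefl _)]

theorem IsH_ext (b : ℕ → ℂ) : IsH (ext b) := by
  intro n
  obtain ⟨m, hm | hm⟩ := Int.eq_nat_or_neg n
  · by_cases h0 : m = 0
    · subst h0
      rw [hm]
      simp [ext_zero]
    · rw [hm, ext_neg_nat b m h0, ext_nat b m h0, Int.natAbs_natCast]
  · by_cases h0 : m = 0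
    · subst h0
      rw [hm]
      simp [ext_zero]
    · rw [hm, neg_neg, ext_nat b m h0, ext_neg_nat b m h0, Int.natAbs_neg, Int.natAbs_natCast,
        map_mul, Complex.conj_conj, map_pow, map_neg, map_one, ← mul_assoc, ← mul_pow]
      norm_num

theorem norm_ext_nat_le (b : ℕ → ℂ) (n : ℕ) : ‖ext b (n : ℤ)‖ ≤ ‖b n‖ := by
  by_cases h0 : n = 0
  · subst h0
    simp [ext_zero]
  · rw [ext_nat b n h0]

theorem norm_ext_neg_nat_le (b : ℕ → ℂ) (n : ℕ) : ‖ext b (-(n : ℤ))‖ ≤ ‖b n‖ := by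
  by_cases h0 : n = 0
  · subst h0
    simp [ext_zero]
  · rw [ext_neg_nat b n h0, norm_mul, norm_pow, norm_neg, norm_one, one_pow, one_mul,
      RCLike.norm_conj]

theorem AS_of_nat {x : ℤ → ℂ} {B : ℕ → ℝ} (hB : Summable B) (h1 : ∀ n : ℕ, ‖x n‖ ≤ B n)
    (h2 : ∀ n : ℕ, ‖x (-(n : ℤ))‖ ≤ B n) : AS x := by
  refine Summable.of_nat_of_neg ?_ ?_
  · exact Summable.of_nonneg_of_le (fun n => norm_nonneg _) h1 hB
  · exact Summable.of_nonneg_of_le (fun n => norm_nonneg _) h2 hB

theorem AS_fC {a b : ℕ → ℂ} (ha : Summable fun n => ‖a n‖) (hb : Summable fun n => ‖b n‖) :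
    AS (fC a b) := by
  have h0 : Summable (fun n : ℕ => if n = 0 then (1 : ℝ) else 0) :=
    (hasSum_ite_eq (0 : ℕ) (1 : ℝ)).summable
  refine AS_of_nat ((h0.add ha).add hb) (fun n => ?_) (fun n => ?_)
  · rw [fC]
    by_cases hn : n = 0
    · subst hn
      simp only [Nat.cast_zero, if_true, norm_one]
      have := norm_nonneg (a 0)
      have := norm_nonneg (b 0)
      linarith
    · rw [if_neg (by exact_mod_cast hn), if_neg hn]
      refine (norm_add_le _ _).trans ?_
      have := norm_ext_nat_le a n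
      have := norm_ext_nat_le b n
      linarith
  · rw [fC]
    by_cases hn : n = 0
    · subst hn
      simp only [Nat.cast_zero, neg_zero, if_true, norm_one]
      have := norm_nonneg (a 0)
      have := norm_nonneg (b 0)
      linarith
    · rw [if_neg (by simpa using hn), if_neg hn]
      refine (norm_add_le _ _).trans ?_
      have := norm_ext_neg_nat_le a n
      have := norm_ext_neg_nat_le b n
      linarith

theorem IsH_fC (a b : ℕ → ℂ) : IsH (fC a b) := by
  intro n
  rw [fC, fC]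
  by_cases hn : n = 0
  · subst hn
    simp
  · rw [if_neg (by simpa using hn), if_neg hn, IsH_ext a n, IsH_ext b n, map_add]
    ring

theorem AS_gC {β : ℝ} {a b : ℕ → ℂ} (ha : Summable fun n : ℕ => (n : ℝ) * ‖a n‖)
    (hb : Summable fun n : ℕ => (n : ℝ) * ‖b n‖) : AS (gC β a b) := by
  have h0 : Summable (fun n : ℕ => if n = 0 then |β| else 0) :=
    (hasSum_ite_eq (0 : ℕ) |β|).summable
  refine AS_of_nat ((h0.add ha).add hb) (fun n => ?_) (fun n => ?_)
  · rw [gC]
    by_cases hn : n = 0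
    · subst hn
      simp
    · rw [if_neg (by exact_mod_cast hn), if_neg hn, Int.natAbs_natCast, norm_mul,
        Complex.norm_natCast, zero_add, ← mul_add]
      refine mul_le_mul_of_nonneg_left ?_ (Nat.cast_nonneg n)
      refine (norm_sub_le _ _).trans ?_
      have := norm_ext_nat_le a n
      have := norm_ext_nat_le b n
      linarith
  · rw [gC]
    by_cases hn : n = 0
    · subst hn
      simp
    · rw [if_neg (by simpa using hn), if_neg hn, Int.natAbs_neg, Int.natAbs_natCast, norm_mul,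
        Complex.norm_natCast, zero_add, ← mul_add]
      refine mul_le_mul_of_nonneg_left ?_ (Nat.cast_nonneg n)
      refine (norm_sub_le _ _).trans ?_
      have := norm_ext_neg_nat_le a n
      have := norm_ext_neg_nat_le b n
      linarith

theorem IsH_gC (β : ℝ) (a b : ℕ → ℂ) : IsH (gC β a b) := by
  intro n
  rw [gC, gC]
  by_cases hn : n = 0
  · subst hn
    simp
  · rw [if_neg (by simpa using hn), if_neg hn, IsH_ext a n, IsH_ext b n, map_mul, map_sub,
      Int.natAbs_neg, Complex.conj_natCast]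
    ring

theorem circle_facts {t : ℝ} (ht : 0 < t) {z : ℂ} (hz : ‖z‖ = t) :
    ‖z / t‖ = 1 ∧ (t : ℂ) / conj z = z / t ∧ (t : ℂ) / z = (z / t)⁻¹ ∧ conj z / t = (z / t)⁻¹ := by
  have htc : (t : ℂ) ≠ 0 := by exact_mod_cast ht.ne'
  have hz0 : z ≠ 0 := by
    intro h
    rw [h, norm_zero] at hz
    exact ht.ne hz
  have hcz0 : conj z ≠ 0 := by
    rwa [Ne, map_eq_zero]
  have h1 : z * conj z = (t : ℂ) * t := by
    rw [Complex.mul_conj, Complex.normSq_eq_norm_sq, hz]
    push_cast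
    ring
  refine ⟨?_, ?_, ?_, ?_⟩
  · rw [norm_div, hz, Complex.norm_real, Real.norm_of_nonneg ht.le, div_self ht.ne']
  · rw [div_eq_div_iff hcz0 htc, h1]
  · rw [inv_div]
  · rw [inv_div, div_eq_div_iff htc hz0, mul_comm, h1]

theorem psi_eq {t β : ℝ} {a b : ℕ → ℂ} {ψ ω : ℂ → ℂ} (h : IsLocal t β a b ψ ω) (ht : 0 < t)
    (ht1 : t < 7 / 8) (ha0 : a 0 = 0) (hb0 : b 0 = 0) (ha : Summable fun n => ‖a n‖)
    (hb : Summable fun n => ‖b n‖) {z : ℂ} (hz : ‖z‖ = t) : ψ z = FF (fC a b) (z / t) := by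
  obtain ⟨c1, c2, c3, c4⟩ := circle_facts ht hz
  have h1 := h.psi z (by rw [hz]; linarith) (by rw [hz]; exact ht1)
  have h2 := FF_nat (AS_fC ha hb) c1
  have h3 : (fun n : ℕ => a n * (z / t) ^ n + (-1) ^ n * conj (a n) * (conj z / t) ^ n +
        b n * (t / conj z) ^ n + (-1) ^ n * conj (b n) * (t / z) ^ n) =
      (fun n : ℕ => if n = 0 then 0 else fC a b n * (z / t) ^ n + fC a b (-n) * ((z / t) ^ n)⁻¹) := by
    funext n
    rw [c2, c3, c4]
    by_cases hn : n = 0
    · subst hn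
      simp [ha0, hb0]
    · rw [if_neg hn, fC, fC, if_neg (by exact_mod_cast hn), if_neg (by simpa using hn),
        ext_nat a n hn, ext_nat b n hn, ext_neg_nat a n hn, ext_neg_nat b n hn, inv_pow]
      ring
  rw [h3] at h1
  have h4 := h1.unique h2
  rw [hz, div_self ht.ne', Real.log_one, mul_zero, Complex.ofReal_zero, sub_zero] at h4
  have h5 : fC a b 0 = 1 := by rw [fC, if_pos rfl]
  rw [h5] at h4
  linear_combination h4

theorem om_eq {t β : ℝ} {a b : ℕ → ℂ} {ψ ω : ℂ → ℂ} (h : IsLocal t β a b ψ ω) (ht : 0 < t)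
    (ht1 : t < 7 / 8) (ha : Summable fun n : ℕ => (n : ℝ) * ‖a n‖)
    (hb : Summable fun n : ℕ => (n : ℝ) * ‖b n‖) {z : ℂ} (hz : ‖z‖ = t) :
    z * ω z - conj (z * ω (-z)) = FF (gC β a b) (z / t) := by
  obtain ⟨c1, c2, c3, c4⟩ := circle_facts ht hz
  have h1 := h.om z (by rw [hz]; linarith) (by rw [hz]; exact ht1)
  have hz' : ‖-z‖ = t := by rw [norm_neg, hz]
  have h2 := h.om (-z) (by rw [hz']; linarith) (by rw [hz']; exact ht1)
  have h2c := (Complex.hasSum_conj').2 h2
  have h3 := h1.add h2c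
  have h4 := FF_nat (AS_gC (β := β) ha hb) c1
  have h5 : (fun n : ℕ => (n : ℂ) * (a n * (z / t) ^ n - (-1) ^ n * conj (b n) * (t / z) ^ n) +
        conj ((n : ℂ) * (a n * (-z / t) ^ n - (-1) ^ n * conj (b n) * (t / -z) ^ n))) =
      (fun n : ℕ => if n = 0 then 0 else gC β a b n * (z / t) ^ n +
        gC β a b (-n) * ((z / t) ^ n)⁻¹) := by
    funext n
    have e1 : conj (-z / t) = -(z / t)⁻¹ := by
      rw [map_div₀, map_neg, Complex.conj_ofReal, neg_div, c4]
    have e2 : conj ((t : ℂ) / -z) = -(z / t) := by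
      rw [map_div₀, map_neg, Complex.conj_ofReal, div_neg, c2]
    rw [c3, map_mul, map_sub, map_mul, map_mul, map_mul, map_pow, map_pow, map_pow, e1, e2,
      Complex.conj_conj, Complex.conj_natCast, map_neg, map_one]
    by_cases hn : n = 0
    · subst hn
      simp
    · rw [if_neg hn, gC, gC, if_neg (by exact_mod_cast hn), if_neg (by simpa using hn),
        ext_nat a n hn, ext_nat b n hn, ext_neg_nat a n hn, ext_neg_nat b n hn, Int.natAbs_neg,
        Int.natAbs_natCast, neg_pow (z / t)⁻¹ n, neg_pow (z / t) n, inv_pow]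
      have h6 : (-1 : ℂ) ^ n * (-1 : ℂ) ^ n = 1 := by
        rw [← mul_pow]
        norm_num
      linear_combination (-(n : ℂ) * b n * (z / t) ^ n) * h6
  rw [h5] at h3
  have h7 := h3.unique h4
  have h8 : gC β a b 0 = β := by rw [gC, if_pos rfl]
  rw [h8] at h7
  have h9 : conj (-z * ω (-z) - (β : ℂ) / 2) = -conj (z * ω (-z)) - (β : ℂ) / 2 := by
    rw [map_sub, map_div₀, Complex.conj_ofReal, neg_mul, map_neg, Complex.conj_ofNat]
  rw [h9] at h7
  linear_combination h7

end FB.BC
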