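import Pool.Agent.FB.BC.B

/-!
# BC/C: bounds (helper66)
-/

open Complex Set
open scoped ComplexConjugate Real

namespace FB.BC

/-- Bound of the Fourier sum minus the constant term. -/
theorem FF_bound {x : ℤ → ℂ} (hx : AS x) {ζ : ℂ} (hζ : ‖ζ‖ = 1) {B : ℕ → ℝ} {S : ℝ}
    (hB0 : ∀ n, 0 ≤ B n) (hB : Summable B) (hS : ∑' n, B n ≤ S)
    (h : ∀ n : ℕ, n ≠ 0 → ‖x n‖ + ‖x (-(n : ℤ))‖ ≤ B n) : ‖FF x ζ - x 0‖ ≤ S := by
  have h1 := FF_nat hx hζ
  rw [← h1.tsum_eq]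
  refine (tsum_of_norm_bounded hB.hasSum fun n => ?_).trans hS
  by_cases hn : n = 0
  · rw [if_pos hn, norm_zero]
    exact hB0 n
  · rw [if_neg hn]
    refine (norm_add_le _ _).trans ?_
    rw [norm_mul, norm_mul, norm_inv, norm_pow, hζ, one_pow, inv_one, mul_one, mul_one]
    exact h n hn

theorem norm_fC_le (a b : ℕ → ℂ) (n : ℕ) (hn : n ≠ 0) :
    ‖fC a b n‖ ≤ ‖a n‖ + ‖b n‖ ∧ ‖fC a b (-(n : ℤ))‖ ≤ ‖a n‖ + ‖b n‖ := by
  constructor
  · rw [fC, if_neg (by exact_mod_cast hn), ext_nat a n hn, ext_nat b n hn]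
    exact norm_add_le _ _
  · rw [fC, if_neg (by simpa using hn)]
    refine (norm_add_le _ _).trans ?_
    exact add_le_add (norm_ext_neg_nat_le a n) (norm_ext_neg_nat_le b n)

theorem norm_gC_le (β : ℝ) (a b : ℕ → ℂ) (n : ℕ) (hn : n ≠ 0) :
    ‖gC β a b n‖ ≤ n * (‖a n‖ + ‖b n‖) ∧ ‖gC β a b (-(n : ℤ))‖ ≤ n * (‖a n‖ + ‖b n‖) := by
  constructor
  · rw [gC, if_neg (by exact_mod_cast hn), ext_nat a n hn, ext_nat b n hn, norm_mul,
      Int.natAbs_natCast, Complex.norm_natCast]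
    exact mul_le_mul_of_nonneg_left (norm_sub_le _ _) (Nat.cast_nonneg n)
  · rw [gC, if_neg (by simpa using hn), norm_mul, Int.natAbs_neg, Int.natAbs_natCast,
      Complex.norm_natCast]
    refine mul_le_mul_of_nonneg_left ((norm_sub_le _ _).trans ?_) (Nat.cast_nonneg n)
    exact add_le_add (norm_ext_neg_nat_le a n) (norm_ext_neg_nat_le b n)

theorem norm_PP_le (x : ℤ → ℂ) (n : ℤ) : ‖PP x n‖ ≤ ‖x n‖ := by
  rw [PP]
  split_ifs
  · rw [Complex.norm_real]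
    exact Complex.abs_re_le_norm _
  · rw [norm_zero]
    exact norm_nonneg _

theorem two_pow_ge (n : ℕ) : (n : ℝ) ≤ 2 ^ n := by
  exact_mod_cast (Nat.lt_two_pow_self (n := n)).le

/-- Summability consequences of a weighted bound. -/
theorem WB_sum {x : ℕ → ℂ} {B : ℝ} (h : WBound x B) :
    Summable (fun n => ‖x n‖) ∧ Summable (fun n : ℕ => (n : ℝ) * ‖x n‖) ∧ ∑' n, ‖x n‖ ≤ B := by
  obtain ⟨h1, h2⟩ := h
  have h3 : ∀ n : ℕ, ‖x n‖ ≤ 2 ^ n * ‖x n‖ := fun n =>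
    le_mul_of_one_le_left (norm_nonneg _) (one_le_pow₀ (by norm_num))
  have h4 : Summable (fun n => ‖x n‖) := Summable.of_nonneg_of_le (fun n => norm_nonneg _) h3 h1
  refine ⟨h4, ?_, (h4.tsum_le_tsum h3 h1).trans h2⟩
  exact Summable.of_nonneg_of_le (fun n => by positivity)
    (fun n => mul_le_mul_of_nonneg_right (two_pow_ge n) (norm_nonneg _)) h1

theorem lead_sum (κ : ℂ) (t : ℝ) (ht : 0 ≤ t) :
    HasSum (fun n => ‖leadC κ t n‖) (‖κ‖ * t / 2) := by
  have h : (fun n => ‖leadC κ t n‖) = fun n => if n = 1 then ‖κ‖ * t / 2 else 0 := by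
    funext n
    rw [leadC]
    split_ifs
    · rw [norm_div, norm_mul, norm_mul, Complex.norm_I, one_mul, RCLike.norm_conj,
        Complex.norm_real, Real.norm_of_nonneg ht]
      norm_num
    · rw [norm_zero]
  rw [h]
  exact hasSum_ite_eq 1 _

/-- The coefficients near the leading ones. -/
theorem near_sum {x : ℕ → ℂ} {κ : ℂ} {t B : ℝ} (ht : 0 ≤ t)
    (h : WBound (fun n => x n - leadC κ t n) B) :
    Summable (fun n => ‖x n‖) ∧ Summable (fun n : ℕ => (n : ℝ) * ‖x n‖) ∧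
      ∑' n, ‖x n‖ ≤ ‖κ‖ * t / 2 + B := by
  obtain ⟨h1, h2, h3⟩ := WB_sum h
  have hl := lead_sum κ t ht
  have hle : ∀ n, ‖x n‖ ≤ ‖leadC κ t n‖ + ‖x n - leadC κ t n‖ := by
    intro n
    have := norm_add_le (leadC κ t n) (x n - leadC κ t n)
    rwa [add_sub_cancel] at this
  have s1 : Summable (fun n => ‖x n‖) :=
    Summable.of_nonneg_of_le (fun n => norm_nonneg _) hle (hl.summable.add h1)
  refine ⟨s1, ?_, ?_⟩
  · have hl2 : Summable (fun n : ℕ => (n : ℝ) * ‖leadC κ t n‖) := by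
      refine summable_of_ne_finset_zero (s := {1}) fun n hn => ?_
      have : n ≠ 1 := by simpa using hn
      simp [leadC, this]
    refine Summable.of_nonneg_of_le (fun n => by positivity) (fun n => ?_) (hl2.add h2)
    rw [← mul_add]
    exact mul_le_mul_of_nonneg_left (hle n) (Nat.cast_nonneg n)
  · refine (s1.tsum_le_tsum hle (hl.summable.add h1)).trans ?_
    rw [hl.summable.tsum_add h1, hl.tsum_eq]
    exact add_le_add le_rfl h3

/-- Bound of the projected normal derivative. -/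
theorem PPg_bound {κ : ℂ} {t β B : ℝ} {a b : ℕ → ℂ} (ht : 0 ≤ t)
    (ha : WBound (fun n => a n - leadC κ t n) B) (hb : WBound (fun n => b n - leadC κ t n) B)
    {ζ : ℂ} (hζ : ‖ζ‖ = 1) : ‖FF (PP (gC β a b)) ζ - β‖ ≤ 4 * B := by
  obtain ⟨_, a2, _⟩ := near_sum ht ha
  obtain ⟨_, b2, _⟩ := near_sum ht hb
  have hAS : AS (PP (gC β a b)) := (AS_gC a2 b2).PP
  have h0 : PP (gC β a b) 0 = β := by
    rw [PP, if_pos (dvd_zero _), gC, if_pos rfl, Complex.ofReal_re]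
  have hs : Summable (fun n : ℕ => 2 * (2 ^ n * ‖a n - leadC κ t n‖ + 2 ^ n * ‖b n - leadC κ t n‖)) :=
    (ha.1.add hb.1).mul_left 2
  have h := FF_bound hAS hζ
    (B := fun n : ℕ => 2 * (2 ^ n * ‖a n - leadC κ t n‖ + 2 ^ n * ‖b n - leadC κ t n‖))
    (S := 4 * B) (fun n => by positivity) hs (by
      rw [tsum_mul_left, ha.1.tsum_add hb.1]
      have := ha.2
      have := hb.2
      linarith) (fun n hn => ?_)
  · rwa [h0] at h
  · by_cases h4 : (4 : ℤ) ∣ (n : ℤ)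
    · have hn1 : n ≠ 1 := by
        rintro rfl
        norm_num at h4
      have hl : leadC κ t n = 0 := by rw [leadC, if_neg hn1]
      rw [hl, sub_zero, sub_zero]
      obtain ⟨g1, g2⟩ := norm_gC_le β a b n hn
      have p1 := norm_PP_le (gC β a b) n
      have p2 := norm_PP_le (gC β a b) (-(n : ℤ))
      have h5 : (n : ℝ) * (‖a n‖ + ‖b n‖) ≤ 2 ^ n * (‖a n‖ + ‖b n‖) :=
        mul_le_mul_of_nonneg_right (two_pow_ge n) (by positivity)
      linarith
    · have e1 : PP (gC β a b) n = 0 := by rw [PP, if_neg h4]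
      have e2 : PP (gC β a b) (-(n : ℤ)) = 0 := by
        rw [PP, if_neg (fun h' => h4 ((dvd_neg).1 h'))]
      rw [e1, e2, norm_zero, add_zero]
      positivity

/-- Bound of `f - 1` and of its projection. -/
theorem f_bound {a b : ℕ → ℂ} {A B : ℝ} (ha : Summable fun n => ‖a n‖) (hb : Summable fun n => ‖b n‖)
    (hA : ∑' n, ‖a n‖ ≤ A) (hB : ∑' n, ‖b n‖ ≤ B) {ζ : ℂ} (hζ : ‖ζ‖ = 1) :
    ‖FF (fC a b) ζ - 1‖ ≤ 2 * (A + B) ∧ ‖FF (PP (fC a b)) ζ - 1‖ ≤ 2 * (A + B) := by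
  have hAS := AS_fC ha hb
  have hs : Summable (fun n : ℕ => 2 * (‖a n‖ + ‖b n‖)) := (ha.add hb).mul_left 2
  have hS : ∑' n : ℕ, 2 * (‖a n‖ + ‖b n‖) ≤ 2 * (A + B) := by
    rw [tsum_mul_left, ha.tsum_add hb]
    linarith
  have f0 : fC a b 0 = 1 := by rw [fC, if_pos rfl]
  have p0 : PP (fC a b) 0 = 1 := by rw [PP, if_pos (dvd_zero _), f0, Complex.one_re, Complex.ofReal_one]
  constructor
  · have h := FF_bound hAS hζ (B := fun n : ℕ => 2 * (‖a n‖ + ‖b n‖)) (fun n => by positivity) hs hS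
      (fun n hn => by
        obtain ⟨h1, h2⟩ := norm_fC_le a b n hn
        linarith)
    rwa [f0] at h
  · have h := FF_bound hAS.PP hζ (B := fun n : ℕ => 2 * (‖a n‖ + ‖b n‖)) (fun n => by positivity) hs hS
      (fun n hn => by
        obtain ⟨h1, h2⟩ := norm_fC_le a b n hn
        have p1 := norm_PP_le (fC a b) n
        have p2 := norm_PP_le (fC a b) (-(n : ℤ))
        linarith)
    rwa [p0] at h

end FB.BC
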