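import Pool.Agent.FB.BC.C

/-!
# BC/D: Theorem BC (helper66)
-/

open Complex Set
open scoped ComplexConjugate Real

namespace FB.BC

/-- The bounds of `t`. -/
theorem t_bounds {k t C : ℝ} (hk : 0 < k) (hCk : C * k ≤ 1 / 100)
    (h : |t / k - 1 / (2 * Real.sqrt 2 * π)| ≤ C * k) : 0 < t ∧ t ≤ k / 4 := by
  have hsq2 : 1.41 < Real.sqrt 2 ∧ Real.sqrt 2 < 1.42 := by
    constructor
    · rw [show (1.41 : ℝ) = Real.sqrt (1.41 ^ 2) by rw [Real.sqrt_sq (by norm_num)]]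
      exact Real.sqrt_lt_sqrt (by norm_num) (by norm_num)
    · rw [show (1.42 : ℝ) = Real.sqrt (1.42 ^ 2) by rw [Real.sqrt_sq (by norm_num)]]
      exact Real.sqrt_lt_sqrt (by norm_num) (by norm_num)
  have hpi3 := Real.pi_gt_three
  have hpi4 := Real.pi_lt_d2
  have hden1 : (8 : ℝ) < 2 * Real.sqrt 2 * π := by nlinarith [hsq2.1, hsq2.2]
  have hden2 : 2 * Real.sqrt 2 * π < 9 := by nlinarith [hsq2.1, hsq2.2]
  have htau1 : 1 / 9 < 1 / (2 * Real.sqrt 2 * π) := one_div_lt_one_div_of_lt (by linarith) hden2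
  have htau2 : 1 / (2 * Real.sqrt 2 * π) < 1 / 8 := one_div_lt_one_div_of_lt (by norm_num) hden1
  have hab := abs_le.1 (h.trans hCk)
  have hq1 : 0 < t / k := by linarith [hab.1]
  have hq2 : t / k ≤ 1 / 4 := by linarith [hab.2]
  constructor
  · by_contra hcon
    push Not at hcon
    have : t / k ≤ 0 := div_nonpos_of_nonpos_of_nonneg hcon hk.le
    linarith
  · rw [div_le_iff₀ hk] at hq2
    linarith

theorem eq_mul_of_FF {Pf Pg : ℝ} {F G s : ℂ} (hPf : Pf ≠ 0) (h : (Pf : ℂ) * G = s * ((Pg : ℂ) * F)) :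
    G = -(s * ((-Pg / Pf : ℝ) : ℂ)) * F := by
  have hc : (Pf : ℂ) ≠ 0 := by exact_mod_cast hPf
  push_cast
  field_simp
  linear_combination h

/-- **THEOREM BC.** -/
theorem theoremBC : TheoremBC := by
  intro C η hC hη
  refine ⟨min (1 / (100 * C)) (min η (1 / 4)), by positivity, ?_⟩
  intro κ E γ t β a b ψ ω hk hk0 hF hL
  have hk1 : ‖κ‖ ≤ 1 / (100 * C) := hk0.trans (min_le_left _ _)
  have hk2 : ‖κ‖ ≤ η := hk0.trans ((min_le_right _ _).trans (min_le_left _ _))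
  have hk3 : ‖κ‖ ≤ 1 / 4 := hk0.trans ((min_le_right _ _).trans (min_le_right _ _))
  have hCk : C * ‖κ‖ ≤ 1 / 100 := by
    rw [le_div_iff₀ (by positivity)] at hk1
    linarith
  obtain ⟨ht, htk⟩ := t_bounds hk hCk hF.tnear
  have ht78 : t < 7 / 8 := by linarith
  set k := ‖κ‖ with hkdef
  have ha0 : a 0 = 0 := by rw [hF.adef]; simp [regC]
  have hb0 := hF.b0
  obtain ⟨a1, a2, a3⟩ := near_sum ht.le hF.anear
  obtain ⟨b1, b2, b3⟩ := near_sum ht.le hF.bnear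
  -- δ
  set A := ‖κ‖ * t / 2 + C * ‖κ‖ ^ 3 with hA
  have hδ : 2 * (A + A) ≤ k ^ 2 := by
    have e1 : C * k ^ 3 ≤ 1 / 100 * k ^ 2 := by
      have : C * k ^ 3 = (C * k) * k ^ 2 := by ring
      rw [this]
      exact mul_le_mul_of_nonneg_right hCk (by positivity)
    have e2 : k * t ≤ k * (k / 4) := mul_le_mul_of_nonneg_left htk hk.le
    rw [hA, ← hkdef]
    nlinarith
  have hk2' : k ^ 2 ≤ k / 4 := by nlinarith
  set f := fC a b with hf
  set g := gC β a b with hg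
  have hfAS : AS f := AS_fC a1 b1
  have hfH : IsH f := IsH_fC a b
  have hgAS : AS g := AS_gC a2 b2
  have hgH : IsH g := IsH_gC β a b
  set y := conv f (cj f) with hy
  have hyAS : AS y := hfAS.conv hfAS.cj
  have hyH : IsH y := hfH.conv hfH.cj
  have hyodd : ∀ n : ℤ, ¬ (2 : ℤ) ∣ n → y n = 0 := fun n hn => conv_cj_odd f n hn
  -- the constant
  set K : ℝ := (y 0).re with hK
  have hPPy : ∀ ζ : ℂ, FF (PP y) ζ = (K : ℂ) := by
    intro ζ
    rw [FF, tsum_eq_single 0]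
    · rw [zpow_zero, mul_one, PP, if_pos (dvd_zero _)]
    · intro n hn
      rw [hF.eq1 n hn, zero_mul]
  -- norm squares
  have hsq : ∀ z : ℂ, ‖z‖ = t → ((‖ψ z‖ ^ 2 : ℝ) : ℂ) = FF y (z / t) := by
    intro z hz
    obtain ⟨c1, -, -, -⟩ := circle_facts ht hz
    rw [hy, FF_conv hfAS hfAS.cj c1, FF_cj hfH c1, hf, ← psi_eq hL ht ht78 ha0 hb0 a1 b1 hz,
      Complex.mul_conj, Complex.normSq_eq_norm_sq]
  have hsum : ∀ z : ℂ, ‖z‖ = t →
      ‖ψ z‖ ^ 2 + ‖ψ (I * z)‖ ^ 2 + ‖ψ (conj z)‖ ^ 2 + ‖ψ (I * conj z)‖ ^ 2 = 4 * K := by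
    intro z hz
    obtain ⟨c1, -, -, -⟩ := circle_facts ht hz
    have n1 : ‖I * z‖ = t := by rw [norm_mul, Complex.norm_I, one_mul, hz]
    have n2 : ‖conj z‖ = t := by rw [RCLike.norm_conj, hz]
    have n3 : ‖I * conj z‖ = t := by rw [norm_mul, Complex.norm_I, one_mul, n2]
    have e1 : I * z / t = I * (z / t) := by rw [mul_div_assoc]
    have e2 : conj z / t = conj (z / t) := by rw [map_div₀, Complex.conj_ofReal]
    have e3 : I * conj z / t = I * conj (z / t) := by rw [mul_div_assoc, e2]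
    have h := FF_avg hyAS hyH hyodd c1
    rw [hPPy, ← e2, ← e1, mul_div_assoc' I, ← hsq z hz, ← hsq _ n1, ← hsq _ n2] at h
    rw [← hsq _ n3] at h
    exact_mod_cast h
  -- f near 1
  have hfb : ∀ ζ : ℂ, ‖ζ‖ = 1 → ‖FF f ζ - 1‖ ≤ k ^ 2 ∧ ‖FF (PP f) ζ - 1‖ ≤ k ^ 2 := by
    intro ζ hζ
    obtain ⟨h1, h2⟩ := f_bound a1 b1 a3 b3 hζ
    exact ⟨h1.trans hδ, h2.trans hδ⟩
  have hψb : ∀ z : ℂ, ‖z‖ = t → 1 - k ^ 2 ≤ ‖ψ z‖ ∧ ‖ψ z‖ ≤ 1 + k ^ 2 := by
    intro z hz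
    obtain ⟨c1, -, -, -⟩ := circle_facts ht hz
    rw [psi_eq hL ht ht78 ha0 hb0 a1 b1 hz]
    have h1 := (hfb _ c1).1
    have h2 := norm_sub_norm_le (FF f (z / t)) 1
    have h3 := norm_sub_norm_le 1 (FF f (z / t))
    rw [norm_one] at h2 h3
    rw [norm_sub_rev] at h3
    constructor <;> linarith
  have hkk : k ^ 2 ≤ 1 / 16 := by nlinarith
  have hKb : (1 - k ^ 2) ^ 2 ≤ K ∧ K ≤ (1 + k ^ 2) ^ 2 := by
    have hz : ‖(t : ℂ)‖ = t := by rw [Complex.norm_real, Real.norm_of_nonneg ht.le]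
    have n1 : ‖I * (t : ℂ)‖ = t := by rw [norm_mul, Complex.norm_I, one_mul, hz]
    have n2 : ‖conj (t : ℂ)‖ = t := by rw [RCLike.norm_conj, hz]
    have n3 : ‖I * conj (t : ℂ)‖ = t := by rw [norm_mul, Complex.norm_I, one_mul, n2]
    have h := hsum _ hz
    have hl : (0 : ℝ) ≤ 1 - k ^ 2 := by linarith
    have q : ∀ z : ℂ, ‖z‖ = t → (1 - k ^ 2) ^ 2 ≤ ‖ψ z‖ ^ 2 ∧ ‖ψ z‖ ^ 2 ≤ (1 + k ^ 2) ^ 2 := by
      intro z hz
      obtain ⟨h1, h2⟩ := hψb z hz
      exact ⟨pow_le_pow_left₀ hl h1 2, pow_le_pow_left₀ (norm_nonneg _) h2 2⟩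
    obtain ⟨q1, q1'⟩ := q _ hz
    obtain ⟨q2, q2'⟩ := q _ n1
    obtain ⟨q3, q3'⟩ := q _ n2
    obtain ⟨q4, q4'⟩ := q _ n3
    constructor <;> linarith
  have hKpos : 0 < K := lt_of_lt_of_le (by nlinarith) hKb.1
  have hsK : 1 - k ^ 2 ≤ Real.sqrt K ∧ Real.sqrt K ≤ 1 + k ^ 2 := by
    constructor
    · exact Real.le_sqrt_of_sq_le hKb.1
    · rw [Real.sqrt_le_left (by positivity)]
      exact hKb.2
  have hsKpos : 0 < Real.sqrt K := Real.sqrt_pos.2 hKpos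
  -- ρ
  have hβ : β ≤ -(k ^ 2 / (2 * π)) + C * k ^ 3 := by
    have := (abs_le.1 hF.βnear).2
    linarith
  have hPf : ∀ ζ : ℂ, ‖ζ‖ = 1 → 0 < (FF (PP f) ζ).re := by
    intro ζ hζ
    have h1 := (hfb ζ hζ).2
    have h2 := (Complex.abs_re_le_norm (FF (PP f) ζ - 1)).trans h1
    rw [Complex.sub_re, Complex.one_re] at h2
    have := (abs_le.1 h2).1
    linarith
  have hPg : ∀ ζ : ℂ, ‖ζ‖ = 1 → (FF (PP g) ζ).re < 0 := by
    intro ζ hζ
    have h1 := PPg_bound ht.le hF.anear hF.bnear hζ (β := β)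
    have h2 := (Complex.abs_re_le_norm (FF (PP g) ζ - β)).trans h1
    rw [Complex.sub_re, Complex.ofReal_re] at h2
    have h3 := (abs_le.1 h2).2
    have hpi4 := Real.pi_lt_d2
    have hpi3 := Real.pi_gt_three
    have e1 : C * k ^ 3 ≤ 1 / 100 * k ^ 2 := by
      have : C * k ^ 3 = (C * k) * k ^ 2 := by ring
      rw [this]
      exact mul_le_mul_of_nonneg_right hCk (by positivity)
    have e2 : k ^ 2 / 7 ≤ k ^ 2 / (2 * π) := by
      apply div_le_div_of_nonneg_left (by positivity) (by positivity)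
      linarith
    have e3 : 0 < k ^ 2 := by positivity
    rw [← hkdef] at h3
    linarith
  have hIζ : ∀ z : ℂ, I * z / (t : ℂ) = I * (z / t) := fun z => by rw [mul_div_assoc]
  have hcζ : ∀ z : ℂ, conj z / (t : ℂ) = conj (z / t) := fun z => by
    rw [map_div₀, Complex.conj_ofReal]
  refine ⟨1 / (2 * Real.sqrt K), fun z => -(FF (PP g) (z / t)).re / (FF (PP f) (z / t)).re,
    ?_, by positivity, ?_, ?_⟩
  · have h1 : 1 / (2 * Real.sqrt K) - 1 / 2 = (1 - Real.sqrt K) / (2 * Real.sqrt K) := by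
      field_simp
    rw [h1, abs_div, abs_of_pos (by positivity : (0 : ℝ) < 2 * Real.sqrt K), div_le_iff₀ (by positivity)]
    have h2 : |1 - Real.sqrt K| ≤ k ^ 2 := by
      rw [abs_le]
      constructor <;> linarith [hsK.1, hsK.2]
    have h3 : k ^ 2 ≤ η * 1 := by nlinarith
    have h4 : (1 : ℝ) ≤ 2 * Real.sqrt K := by linarith [hsK.1]
    exact h2.trans (h3.trans (mul_le_mul_of_nonneg_left h4 hη.le))
  · refine ⟨?_, ?_, ?_, ?_, ?_⟩
    · intro z hz
      rw [hsum z hz, div_pow, mul_pow, Real.sq_sqrt hKpos.le]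
      field_simp
      norm_num
    · intro z hz
      obtain ⟨c1, -, -, -⟩ := circle_facts ht hz
      exact div_pos (neg_pos.2 (hPg _ c1)) (hPf _ c1)
    · intro z hz
      change -(FF (PP g) (I * z / t)).re / (FF (PP f) (I * z / t)).re = _
      rw [hIζ, FF_PP_rot, FF_PP_rot]
    · intro z hz
      obtain ⟨c1, -, -, -⟩ := circle_facts ht hz
      change -(FF (PP g) (conj z / t)).re / (FF (PP f) (conj z / t)).re = _
      rw [hcζ, FF_PP_conj_arg hgH c1, FF_PP_conj_arg hfH c1]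
    · intro z hz
      obtain ⟨c1, -, -, -⟩ := circle_facts ht hz
      rw [om_eq hL ht ht78 a2 b2 hz, psi_eq hL ht ht78 ha0 hb0 a1 b1 hz]
      have h1 : FF (PP f) (z / t) * FF g (z / t) = FF (PP g) (z / t) * FF f (z / t) := by
        rw [← FF_conv hfAS.PP hgAS c1, ← FF_conv hgAS.PP hfAS c1]
        congr 1
        funext n
        exact hF.eq2 n
      rw [← FF_PP_re hfH c1, ← FF_PP_re hgH c1] at h1
      rw [← one_mul ((((FF (PP g) (z / t)).re : ℝ) : ℂ) * FF f (z / t))] at h1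
      have h2 := eq_mul_of_FF (s := 1) (hPf _ c1).ne' h1
      rw [one_mul] at h2
      exact h2
  · intro κ' E' γ' σ β' a' b' v ν hE hL'
    have ha0' : a' 0 = 0 := by rw [hE.adef]; simp [regC]
    have hb0' := hE.b0
    obtain ⟨a1', a2', a3'⟩ := WB_sum hE.asmall
    obtain ⟨b1', b2', b3'⟩ := WB_sum hE.bsmall
    constructor
    · intro z hz
      obtain ⟨c1, -, -, -⟩ := circle_facts ht hz
      rw [om_eq hL' ht ht78 a2' b2' hz, psi_eq hL' ht ht78 ha0' hb0' a1' b1' hz]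
      have h1 : FF (PP f) (z / t) * FF (gC β' a' b') (z / t) =
          σ * (FF (PP g) (z / t) * FF (fC a' b') (z / t)) := by
        rw [← FF_conv hfAS.PP (AS_gC a2' b2') c1, ← FF_conv hgAS.PP (AS_fC a1' b1') c1]
        rw [FF, FF, ← tsum_mul_left]
        refine tsum_congr fun n => ?_
        rw [hE.eq2 n]
        ring
      rw [← FF_PP_re hfH c1, ← FF_PP_re hgH c1] at h1
      have h2 := eq_mul_of_FF (s := σ) (hPf _ c1).ne' h1
      rw [h2]
      push_cast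
      ring
    · intro z hz
      obtain ⟨c1, -, -, -⟩ := circle_facts ht hz
      rw [psi_eq hL' ht ht78 ha0' hb0' a1' b1' hz]
      have h1 := (f_bound a1' b1' a3' b3' c1).1
      refine h1.trans ?_
      rw [← hkdef]
      have : C * k ^ 2 = (C * k) * k := by ring
      rw [this]
      nlinarith

end FB.BC
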